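import Pool.Agent.Run7.h350.EP.Iface

/-!
# HOPF: Hopf's boundary point lemma
-/

set_option autoImplicit false

namespace Pool.Agent.Run7.h664.EP

open MeasureTheory Set Topology Filter Pool.Agent.Run7.h350.EP

/-- The second derivative at a local minimum is nonnegative. -/
theorem second_nonneg {g g' : ℝ → ℝ} {d : ℝ} (h : IsLocalMin g 0)
    (h1 : ∀ᶠ s in 𝓝 (0 : ℝ), HasDerivAt g (g' s) s) (h2 : HasDerivAt g' d 0) : 0 ≤ d := by
  by_contra hd
  push Not at hd
  have e1 : deriv g =ᶠ[𝓝 0] g' := h1.mono fun s hs => hs.deriv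
  have e2 : deriv (deriv g) 0 = d := by
    rw [e1.deriv_eq]
    exact h2.deriv
  have h3 : IsLocalMax g 0 := isLocalMax_of_deriv_deriv_neg (by rw [e2]; exact hd) h.deriv_eq_zero
    h1.self_of_nhds.continuousAt
  have h4 : g =ᶠ[𝓝 0] fun _ => g 0 := by
    filter_upwards [h, h3] with s hs hs'
    exact le_antisymm hs' hs
  have h6 := (h4.deriv).deriv_eq
  rw [e2] at h6
  simp at h6
  linarith

/-- the squared norm along a coordinate line -/
theorem norm_line {m : ℕ} (y : X m) (i : Fin (m + 1)) (s : ℝ) :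
    ‖y + s • (EuclideanSpace.single i (1 : ℝ) : X m)‖ ^ 2 = ‖y‖ ^ 2 + 2 * s * y i + s ^ 2 := by
  rw [norm_add_sq_real, inner_smul_right, norm_smul]
  have h1 : inner ℝ y (EuclideanSpace.single i (1 : ℝ) : X m) = y i := by
    rw [EuclideanSpace.inner_single_right]
    simp
  have h2 : ‖(EuclideanSpace.single i (1 : ℝ) : X m)‖ = 1 := by simp
  rw [h1, h2, mul_one, Real.norm_eq_abs, sq_abs]
  ring

/-- **HOPF**. -/
theorem t_HOPF : S_HOPF := by
  intro m Ω u p z e r hΩ hr hball hp hup hcont hnn hpos hC2 hlap he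
  have hscl : Metric.closedBall z r ⊆ closure Ω := by
    rw [← closure_ball z hr.ne']
    exact closure_mono hball
  -- the minimum on the inner ball
  obtain ⟨y0, hy0, hmin0⟩ := (isCompact_closedBall z (r / 2)).exists_isMinOn
    ⟨z, Metric.mem_closedBall_self (by positivity)⟩
    (hcont.mono ((Metric.closedBall_subset_closedBall (by linarith)).trans hscl))
  have hsub2 : Metric.closedBall z (r / 2) ⊆ Ω :=
    (Metric.closedBall_subset_ball (by linarith)).trans hball
  set κ : ℝ := u y0 with hκ
  have hκ0 : 0 < κ := hpos y0 (hsub2 hy0)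
  set a : ℝ := 2 * (m + 2) / r ^ 2 with ha
  have ha0 : 0 < a := by positivity
  have har : a * r ^ 2 = 2 * (m + 2) := by
    rw [ha]
    field_simp
  set b : X m → ℝ := fun x => κ * (Real.exp (-a * ‖x - z‖ ^ 2) - Real.exp (-a * r ^ 2)) with hb
  have hbc : Continuous b := by
    rw [hb]
    fun_prop
  -- the annulus
  set A : Set (X m) := {x | r / 2 ≤ dist x z ∧ dist x z ≤ r} with hA
  have hAc : IsCompact A := by
    refine (isCompact_closedBall z r).of_isClosed_subset ?_ (fun x hx => hx.2)
    have hdc : Continuous (fun x : X m => dist x z) := by fun_prop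
    exact (isClosed_le continuous_const hdc).inter (isClosed_le hdc continuous_const)
  have hAΩ : A ⊆ closure Ω := fun x hx => hscl hx.2
  have hpA : p ∈ A := ⟨by rw [hp]; linarith, hp.le⟩
  have hFc : ContinuousOn (fun x => u x - b x) A := (hcont.mono hAΩ).sub hbc.continuousOn
  obtain ⟨x, hxA, hmin⟩ := hAc.exists_isMinOn ⟨p, hpA⟩ hFc
  have key : 0 ≤ u x - b x := by
    by_contra hneg
    push Not at hneg
    have hx1 : r / 2 < dist x z := by
      rcases hxA.1.eq_or_lt with h | h
      · exfalso
        have h1 : κ ≤ u x := hmin0 (a := x) (by rw [Metric.mem_closedBall]; exact h.symm.le)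
        have h2 : b x ≤ κ := by
          have h3 : Real.exp (-a * ‖x - z‖ ^ 2) ≤ 1 := by
            apply Real.exp_le_one_iff.2
            have : 0 ≤ a * ‖x - z‖ ^ 2 := by positivity
            linarith
          have h4 := Real.exp_pos (-a * r ^ 2)
          rw [hb]
          simp only
          nlinarith
        linarith
      · exact h
    have hx2 : dist x z < r := by
      rcases hxA.2.eq_or_lt with h | h
      · exfalso
        have h1 : b x = 0 := by
          rw [hb]
          simp only
          rw [← dist_eq_norm, h, sub_self, mul_zero]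
        have h2 := hnn x (hAΩ hxA)
        linarith
      · exact h
    have hxΩ : x ∈ Ω := hball hx2
    -- the minimum is local
    have hnh : A ∈ 𝓝 x := by
      have hdc : Continuous (fun x : X m => dist x z) := by fun_prop
      have h1 : {y : X m | r / 2 < dist y z ∧ dist y z < r} ∈ 𝓝 x :=
        ((isOpen_lt continuous_const hdc).inter
          (isOpen_lt hdc continuous_const)).mem_nhds ⟨hx1, hx2⟩
      exact mem_of_superset h1 (fun y hy => ⟨hy.1.le, hy.2.le⟩)
    have hloc : IsLocalMin (fun x => u x - b x) x := by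
      filter_upwards [hnh] with y hy
      exact hmin hy
    have hC2x : ContDiffAt ℝ 2 u x := hC2.contDiffAt (hΩ.mem_nhds hxΩ)
    set y : X m := x - z with hy
    set E : ℝ := κ * Real.exp (-a * ‖y‖ ^ 2) with hE
    have hE0 : 0 < E := by positivity
    have main : ∀ i, 0 ≤ pd i (pd i u) x - E * (4 * a ^ 2 * y i ^ 2 - 2 * a) := by
      intro i
      set ei : X m := EuclideanSpace.single i 1 with hei
      have hline : ∀ s : ℝ, HasDerivAt (fun s : ℝ => x + s • ei) ei s := by
        intro s
        simpa using ((hasDerivAt_id s).smul_const ei).const_add x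
      have htend : Tendsto (fun s : ℝ => x + s • ei) (𝓝 0) (𝓝 x) := by
        have h1 : Continuous (fun s : ℝ => x + s • ei) := by fun_prop
        have h2 := h1.tendsto 0
        simpa using h2
      have hbl : ∀ s : ℝ, b (x + s • ei) =
          κ * (Real.exp (-a * (‖y‖ ^ 2 + 2 * s * y i + s ^ 2)) - Real.exp (-a * r ^ 2)) := by
        intro s
        rw [hb]
        simp only
        rw [show x + s • ei - z = y + s • ei by rw [hy]; abel, hei, norm_line]
      have hq : ∀ s : ℝ, HasDerivAt (fun s : ℝ => -a * (‖y‖ ^ 2 + 2 * s * y i + s ^ 2))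
          (-a * (2 * y i + 2 * s)) s := by
        intro s
        have h1 : HasDerivAt (fun s : ℝ => ‖y‖ ^ 2 + 2 * s * y i + s ^ 2)
            (2 * y i + 2 * s) s := by
          have h2 : HasDerivAt (fun s : ℝ => 2 * s * y i) (2 * y i) s := by
            simpa using ((hasDerivAt_id s).const_mul 2).mul_const (y i)
          have h3 : HasDerivAt (fun s : ℝ => s ^ 2) (2 * s) s := by
            simpa using hasDerivAt_pow 2 s
          exact (h2.const_add _).add h3
        exact h1.const_mul _
      have hb1 : ∀ s : ℝ, HasDerivAt (fun s : ℝ => b (x + s • ei))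
          (κ * (Real.exp (-a * (‖y‖ ^ 2 + 2 * s * y i + s ^ 2)) * (-a * (2 * y i + 2 * s)))) s := by
        intro s
        have h1 := (((hq s).exp).sub_const (Real.exp (-a * r ^ 2))).const_mul κ
        exact h1.congr_of_eventuallyEq (Eventually.of_forall hbl)
      have hb2 : HasDerivAt (fun s : ℝ =>
          κ * (Real.exp (-a * (‖y‖ ^ 2 + 2 * s * y i + s ^ 2)) * (-a * (2 * y i + 2 * s))))
          (E * (4 * a ^ 2 * y i ^ 2 - 2 * a)) 0 := by
        have h1 : HasDerivAt (fun s : ℝ => -a * (2 * y i + 2 * s)) (-a * 2) 0 := by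
          have h2 : HasDerivAt (fun s : ℝ => 2 * y i + 2 * s) 2 0 := by
            simpa using ((hasDerivAt_id (0 : ℝ)).const_mul 2).const_add (2 * y i)
          exact h2.const_mul _
        have h2 := (((hq 0).exp).mul h1).const_mul κ
        refine h2.congr_deriv ?_
        rw [hE]
        simp only [mul_zero, zero_mul, add_zero, ne_eq, OfNat.ofNat_ne_zero, not_false_eq_true,
          zero_pow]
        ring
      have hu1 : ∀ᶠ s in 𝓝 (0 : ℝ), HasDerivAt (fun s : ℝ => u (x + s • ei))
          (pd i u (x + s • ei)) s := by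
        have h1 : ∀ᶠ y in 𝓝 x, DifferentiableAt ℝ u y := by
          have := (hC2x.eventually (by simp)).mono
            (fun y (hy : ContDiffAt ℝ 2 u y) => hy.differentiableAt (by norm_num))
          exact this
        filter_upwards [htend.eventually h1] with s hs
        exact hs.hasFDerivAt.comp_hasDerivAt s (hline s)
      have hu2 : HasDerivAt (fun s : ℝ => pd i u (x + s • ei)) (pd i (pd i u) x) 0 := by
        have h1 : DifferentiableAt ℝ (fderiv ℝ u) x :=
          (hC2x.fderiv_right (m := 1) (by norm_num)).differentiableAt (by norm_num)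
        have h2 : DifferentiableAt ℝ (pd i u) x := by
          unfold pd
          exact h1.clm_apply (differentiableAt_const _)
        have h3 : HasFDerivAt (pd i u) (fderiv ℝ (pd i u) x) (x + (0 : ℝ) • ei) := by
          rw [zero_smul, add_zero]
          exact h2.hasFDerivAt
        exact h3.comp_hasDerivAt 0 (hline 0)
      have hlm : IsLocalMin (fun s : ℝ => u (x + s • ei) - b (x + s • ei)) 0 := by
        have h1 := htend.eventually hloc
        filter_upwards [h1] with s hs
        simpa using hs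
      refine second_nonneg hlm (g' := fun s : ℝ => pd i u (x + s • ei) -
        κ * (Real.exp (-a * (‖y‖ ^ 2 + 2 * s * y i + s ^ 2)) * (-a * (2 * y i + 2 * s)))) ?_ ?_
      · filter_upwards [hu1] with s hs
        exact hs.sub (hb1 s)
      · exact hu2.sub hb2
    have hsum := Finset.sum_nonneg (fun i (_ : i ∈ Finset.univ) => main i)
    rw [Finset.sum_sub_distrib, ← Finset.mul_sum, Finset.sum_sub_distrib, ← Finset.mul_sum,
      Finset.sum_const, Finset.card_univ, Fintype.card_fin, nsmul_eq_mul] at hsum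
    have hny : ∑ i, y i ^ 2 = ‖y‖ ^ 2 := by
      rw [EuclideanSpace.norm_sq_eq]
      simp
    rw [hny] at hsum
    have hl := hlap x hxΩ
    have hl' : ∑ i, pd i (pd i u) x ≤ 0 := hl
    have hyr : r / 2 ≤ ‖y‖ := by
      rw [hy, ← dist_eq_norm]
      exact hx1.le
    have h5 : (r / 2) ^ 2 ≤ ‖y‖ ^ 2 := by
      apply pow_le_pow_left₀ (by positivity) hyr
    have h6 : 0 < 4 * a ^ 2 * ‖y‖ ^ 2 - (((m + 1 : ℕ) : ℝ)) * (2 * a) := by
      have h7 : 4 * a ^ 2 * (r / 2) ^ 2 ≤ 4 * a ^ 2 * ‖y‖ ^ 2 := by
        apply mul_le_mul_of_nonneg_left h5 (by positivity)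
      have h8 : 4 * a ^ 2 * (r / 2) ^ 2 = a * (a * r ^ 2) := by ring
      rw [h8, har] at h7
      push_cast
      nlinarith
    have h9 := mul_pos hE0 h6
    linarith
  -- conclusion
  set c0 : ℝ := inner ℝ (z - p) e with hc0
  have hen : 0 < ‖e‖ := by
    rw [norm_pos_iff]
    intro h
    rw [hc0, h, inner_zero_right] at he
    exact lt_irrefl _ he
  refine ⟨κ * (a * c0 * Real.exp (-a * r ^ 2)), by positivity,
    min (c0 / ‖e‖ ^ 2) (3 * r ^ 2 / (8 * c0)), by positivity, fun t ht ht0 => ?_⟩
  have ht1 : t < c0 / ‖e‖ ^ 2 := ht0.trans_le (min_le_left _ _)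
  have ht2 : t < 3 * r ^ 2 / (8 * c0) := ht0.trans_le (min_le_right _ _)
  rw [lt_div_iff₀ (by positivity)] at ht1 ht2
  have hnorm : ‖p + t • e - z‖ ^ 2 = r ^ 2 - 2 * t * c0 + t ^ 2 * ‖e‖ ^ 2 := by
    have h1 : p + t • e - z = t • e - (z - p) := by abel
    have h2 : ‖z - p‖ = r := by
      rw [← dist_eq_norm, dist_comm]
      exact hp
    rw [h1, norm_sub_sq_real, inner_smul_left, norm_smul, h2, real_inner_comm, ← hc0,
      Real.norm_eq_abs, mul_pow, sq_abs]
    simp only [conj_trivial]
    ring
  have h1 : t ^ 2 * ‖e‖ ^ 2 ≤ t * c0 := by nlinarith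
  have h2 : ‖p + t • e - z‖ ^ 2 ≤ r ^ 2 - t * c0 := by
    rw [hnorm]
    linarith
  have h3 : (r / 2) ^ 2 ≤ ‖p + t • e - z‖ ^ 2 := by
    rw [hnorm]
    have : 0 ≤ t ^ 2 * ‖e‖ ^ 2 := by positivity
    nlinarith
  have hq : p + t • e ∈ A := by
    rw [hA, mem_ofPred_eq, dist_eq_norm]
    refine ⟨?_, ?_⟩
    · exact (pow_le_pow_iff_left₀ (by positivity) (norm_nonneg _) (by norm_num)).1 h3
    · refine (pow_le_pow_iff_left₀ (norm_nonneg _) hr.le (two_ne_zero)).1 ?_
      have : 0 < t * c0 := by positivity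
      linarith
  have h4 : u x - b x ≤ u (p + t • e) - b (p + t • e) := hmin hq
  have h5 : κ * (a * c0 * Real.exp (-a * r ^ 2)) * t ≤ b (p + t • e) := by
    rw [hb]
    simp only
    have h6 : Real.exp (-a * r ^ 2) * (a * (t * c0) + 1) ≤ Real.exp (-a * ‖p + t • e - z‖ ^ 2) := by
      have h7 : -a * r ^ 2 + a * (t * c0) ≤ -a * ‖p + t • e - z‖ ^ 2 := by nlinarith
      calc Real.exp (-a * r ^ 2) * (a * (t * c0) + 1)
          ≤ Real.exp (-a * r ^ 2) * Real.exp (a * (t * c0)) :=
            mul_le_mul_of_nonneg_left (Real.add_one_le_exp _) (Real.exp_pos _).le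
        _ = Real.exp (-a * r ^ 2 + a * (t * c0)) := (Real.exp_add _ _).symm
        _ ≤ _ := Real.exp_le_exp.2 h7
    have h8 : κ * (a * c0 * Real.exp (-a * r ^ 2)) * t =
        κ * (Real.exp (-a * r ^ 2) * (a * (t * c0))) := by ring
    rw [h8]
    apply mul_le_mul_of_nonneg_left _ hκ0.le
    linarith
  linarith

end Pool.Agent.Run7.h664.EP
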